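import Mathlib

/-!
# A partial matrix whose fractional minimal rank is its minimal rank, but not its triangular one

The partial matrix, with blocks of size two over any field,
```
  I I ?
  ? I I
  g ? I
```
where `g` and `g - 1` are invertible, has `tmr = 2` and `fmr = mr = 3`.
-/

set_option autoImplicit false

universe u

namespace Pool.Agent.Results.MP_f8e91b_al.BlockCycle

open Matrix

section Defs

variable {F : Type u} [Field F] {m n : Type} [Fintype n]

/-- `B` is a completion of the partial matrix with pattern of knowns `J` and entries `a`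
(the values of `a` outside `J` play no role). -/
def IsCompletion (J : Set (m × n)) (a B : Matrix m n F) : Prop :=
  ∀ i j, (i, j) ∈ J → B i j = a i j

/-- The minimal rank of the completions. -/
noncomputable def mr (J : Set (m × n)) (a : Matrix m n F) : ℕ :=
  sInf {r | ∃ B : Matrix m n F, IsCompletion J a B ∧ B.rank = r}

/-- Triangular patterns. -/
def Triangular (T : Set (m × n)) : Prop :=
  ∀ i j k l, (i, j) ∈ T → (k, l) ∈ T → (i, l) ∈ T ∨ (k, j) ∈ T

/-- The maximal triangular subpatterns `T` of `J`. -/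
def IsMaxTriangular (J T : Set (m × n)) : Prop :=
  T ⊆ J ∧ Triangular T ∧ ∀ S : Set (m × n), S ⊆ J → Triangular S → T ⊆ S → S = T

/-- The triangular minimal rank. -/
noncomputable def tmr (J : Set (m × n)) (a : Matrix m n F) : ℕ :=
  sSup {r | ∃ T : Set (m × n), IsMaxTriangular J T ∧ mr T a = r}

/-- The pattern of knowns of `𝒜 ⊗ I_b`. -/
def tensorPattern (J : Set (m × n)) (b : ℕ) : Set ((m × Fin b) × (n × Fin b)) :=
  {x | (x.1.1, x.2.1) ∈ J}

/-- The entries of `𝒜 ⊗ I_b`. -/
def tensorEntries (a : Matrix m n F) (b : ℕ) : Matrix (m × Fin b) (n × Fin b) F :=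
  fun x y => if x.2 = y.2 then a x.1 y.1 else 0

/-- `mr_b(𝒜)`, the minimal rank of `𝒜 ⊗ I_b`. -/
noncomputable def mrb (J : Set (m × n)) (a : Matrix m n F) (b : ℕ) : ℕ :=
  mr (tensorPattern J b) (tensorEntries a b)

/-- The fractional minimal rank, the infimum of `mr_b(𝒜) / b` over the positive integers `b`. -/
noncomputable def fmr (J : Set (m × n)) (a : Matrix m n F) : ℝ :=
  ⨅ b : ℕ+, (mrb J a b : ℝ) / (b : ℕ)

end Defs

section General

variable {F : Type u} [Field F] {m n : Type} [Fintype n]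

theorem mr_le {J : Set (m × n)} {a B : Matrix m n F} (h : IsCompletion J a B) :
    mr J a ≤ B.rank := Nat.sInf_le ⟨B, h, rfl⟩

theorem le_mr {J : Set (m × n)} {a : Matrix m n F} {r : ℕ}
    (h : ∀ B : Matrix m n F, IsCompletion J a B → r ≤ B.rank) : r ≤ mr J a := by
  refine le_csInf ⟨a.rank, a, fun _ _ _ => rfl, rfl⟩ ?_
  rintro s ⟨B, hB, rfl⟩
  exact h B hB

/-- If the columns of `C` and `D` are in the column space of `B`, the rows `ρ` of `C` are zero
and those of `D` are the identity, then `rank C + |κ| ≤ rank B`. -/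
theorem rank_add_card_le [Fintype m] {κ : Type} [Fintype κ] [DecidableEq κ] (B : Matrix m n F)
    (C D : Matrix m κ F)
    (ρ : κ → m) (hC : ∀ j, C.col j ∈ LinearMap.range B.mulVecLin)
    (hD : ∀ j, D.col j ∈ LinearMap.range B.mulVecLin) (hCz : ∀ i j, C (ρ i) j = 0)
    (hDo : ∀ i j, D (ρ i) j = if i = j then 1 else 0) :
    C.rank + Fintype.card κ ≤ B.rank := by
  let V := LinearMap.range B.mulVecLin
  let φ : V →ₗ[F] (κ → F) := (LinearMap.funLeft F F ρ) ∘ₗ V.subtype
  have hsurj : LinearMap.range φ = ⊤ := by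
    rw [LinearMap.range_eq_top]
    intro t
    refine ⟨∑ j, t j • ⟨D.col j, hD j⟩, ?_⟩
    ext i
    simp [φ, LinearMap.funLeft_apply, hDo, Finset.sum_apply]
  have h1 := LinearMap.finrank_range_add_finrank_ker φ
  rw [hsurj, finrank_top, Module.finrank_fintype_fun_eq_card] at h1
  have h2 : C.rank ≤ Module.finrank F (LinearMap.ker φ) := by
    have h3 : LinearMap.range C.mulVecLin ≤ (LinearMap.ker φ).map V.subtype := by
      rw [Matrix.range_mulVecLin, Submodule.span_le]
      rintro _ ⟨j, rfl⟩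
      refine ⟨⟨C.col j, hC j⟩, ?_, rfl⟩
      rw [SetLike.mem_coe, LinearMap.mem_ker]
      ext i
      simp [φ, LinearMap.funLeft_apply, hCz]
    calc C.rank = Module.finrank F (LinearMap.range C.mulVecLin) := rfl
      _ ≤ Module.finrank F ((LinearMap.ker φ).map V.subtype) := Submodule.finrank_mono h3
      _ ≤ Module.finrank F (LinearMap.ker φ) := Submodule.finrank_map_le _ _
  have h4 : B.rank = Module.finrank F V := rfl
  omega

end General

section Example

variable (F : Type u) [Field F]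

/-- the invertible matrix `g`, for which `g - 1` is invertible too -/
def g : Matrix (Fin 2) (Fin 2) F := !![0, -1; 1, 1]

/-- the known blocks are those in positions `(0,0), (0,1), (1,1), (1,2), (2,2), (2,0)` -/
def J : Set ((Fin 3 × Fin 2) × (Fin 3 × Fin 2)) := {x | x.2.1 = x.1.1 ∨ x.2.1 = x.1.1 + 1}

/-- the entries: the block in position `(2,0)` is `g`, the other known blocks are the identity -/
def a : Matrix (Fin 3 × Fin 2) (Fin 3 × Fin 2) F := fun x y =>
  if x.1 = 2 ∧ y.1 = 0 then g F x.2 y.2 else (1 : Matrix (Fin 2) (Fin 2) F) x.2 y.2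

variable {F}

theorem rank_add_le {m n : Type} [Fintype m] [Fintype n] (A B : Matrix m n F) :
    (A + B).rank ≤ A.rank + B.rank := by
  unfold Matrix.rank
  rw [Matrix.mulVecLin_add]
  refine le_trans (Submodule.finrank_mono (LinearMap.range_add_le _ _)) ?_
  exact Submodule.finrank_add_le_finrank_add_finrank _ _

/-- the block columns of a matrix -/
def bcol {b : ℕ} (B : Matrix ((Fin 3 × Fin 2) × Fin b) ((Fin 3 × Fin 2) × Fin b) F) (j : Fin 3) :
    Matrix ((Fin 3 × Fin 2) × Fin b) (Fin 2 × Fin b) F := fun x y => B x ((j, y.1), y.2)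

theorem bcol_mem {b : ℕ} (B : Matrix ((Fin 3 × Fin 2) × Fin b) ((Fin 3 × Fin 2) × Fin b) F)
    (j : Fin 3) (y : Fin 2 × Fin b) : (bcol B j).col y ∈ LinearMap.range B.mulVecLin := by
  rw [Matrix.range_mulVecLin]
  exact Submodule.subset_span ⟨((j, y.1), y.2), rfl⟩

theorem lower {b : ℕ} (B : Matrix ((Fin 3 × Fin 2) × Fin b) ((Fin 3 × Fin 2) × Fin b) F)
    (hB : IsCompletion (tensorPattern J b) (tensorEntries (a F) b) B) : 3 * b ≤ B.rank := by
  have hcard : Fintype.card (Fin 2 × Fin b) = 2 * b := by simp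
  have h00 : ∀ i j : Fin 2 × Fin b, bcol B 0 ((0, i.1), i.2) j = if i = j then 1 else 0 := by
    intro i j
    have := hB ((0, i.1), i.2) ((0, j.1), j.2) (by simp [tensorPattern, J])
    simp only [bcol, this, tensorEntries, a, Matrix.one_apply, Prod.ext_iff]
    by_cases h1 : i.1 = j.1 <;> by_cases h2 : i.2 = j.2 <;> simp [h1, h2]
  have h01 : ∀ i j : Fin 2 × Fin b, bcol B 1 ((0, i.1), i.2) j = if i = j then 1 else 0 := by
    intro i j
    have := hB ((0, i.1), i.2) ((1, j.1), j.2) (by simp [tensorPattern, J])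
    simp only [bcol, this, tensorEntries, a, Matrix.one_apply, Prod.ext_iff]
    by_cases h1 : i.1 = j.1 <;> by_cases h2 : i.2 = j.2 <;> simp [h1, h2]
  have h11 : ∀ i j : Fin 2 × Fin b, bcol B 1 ((1, i.1), i.2) j = if i = j then 1 else 0 := by
    intro i j
    have := hB ((1, i.1), i.2) ((1, j.1), j.2) (by simp [tensorPattern, J])
    simp only [bcol, this, tensorEntries, a, Matrix.one_apply, Prod.ext_iff]
    by_cases h1 : i.1 = j.1 <;> by_cases h2 : i.2 = j.2 <;> simp [h1, h2]
  have h12 : ∀ i j : Fin 2 × Fin b, bcol B 2 ((1, i.1), i.2) j = if i = j then 1 else 0 := by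
    intro i j
    have := hB ((1, i.1), i.2) ((2, j.1), j.2) (by simp [tensorPattern, J])
    simp only [bcol, this, tensorEntries, a, Matrix.one_apply, Prod.ext_iff]
    by_cases h1 : i.1 = j.1 <;> by_cases h2 : i.2 = j.2 <;> simp [h1, h2]
  have h22 : ∀ i j : Fin 2 × Fin b, bcol B 2 ((2, i.1), i.2) j = if i = j then 1 else 0 := by
    intro i j
    have := hB ((2, i.1), i.2) ((2, j.1), j.2) (by simp [tensorPattern, J])
    simp only [bcol, this, tensorEntries, a, Matrix.one_apply, Prod.ext_iff]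
    by_cases h1 : i.1 = j.1 <;> by_cases h2 : i.2 = j.2 <;> simp [h1, h2]
  have h20 : ∀ i j : Fin 2 × Fin b, bcol B 0 ((2, i.1), i.2) j =
      if i.2 = j.2 then g F i.1 j.1 else 0 := by
    intro i j
    have := hB ((2, i.1), i.2) ((0, j.1), j.2) (by simp [tensorPattern, J])
    simp only [bcol, this, tensorEntries, a]
    simp
  -- the first two block columns
  have s1 := rank_add_card_le B (bcol B 0 - bcol B 1) (bcol B 1) (fun i => ((0, i.1), i.2))
    (fun j => Submodule.sub_mem _ (bcol_mem B 0 j) (bcol_mem B 1 j)) (bcol_mem B 1)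
    (fun i j => by rw [Matrix.sub_apply, h00, h01, sub_self]) h01
  have s2 := rank_add_card_le B (bcol B 1 - bcol B 2) (bcol B 2) (fun i => ((1, i.1), i.2))
    (fun j => Submodule.sub_mem _ (bcol_mem B 1 j) (bcol_mem B 2 j)) (bcol_mem B 2)
    (fun i j => by rw [Matrix.sub_apply, h11, h12, sub_self]) h12
  -- the difference of the first and the third block column
  have s3 : 2 * b ≤ (bcol B 0 - bcol B 2).rank := by
    have e : ((bcol B 0 - bcol B 2).submatrix (fun i : Fin 2 × Fin b => ((2, i.1), i.2)) id) =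
        Matrix.kroneckerMap (· * ·) (g F - 1) (1 : Matrix (Fin b) (Fin b) F) := by
      ext i j
      simp only [Matrix.submatrix_apply, id, Matrix.sub_apply, h20, h22, Matrix.kroneckerMap_apply,
        Matrix.one_apply, Prod.ext_iff]
      by_cases h1 : i.1 = j.1 <;> by_cases h2 : i.2 = j.2 <;> simp [h1, h2]
    have h3 : (Matrix.kroneckerMap (· * ·) (g F - 1) (1 : Matrix (Fin b) (Fin b) F)).rank = 2 * b := by
      rw [Matrix.rank_of_isUnit, hcard]
      refine IsUnit.of_mul_eq_one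
        (Matrix.kroneckerMap (· * ·) !![0, 1; -1, -1] (1 : Matrix (Fin b) (Fin b) F)) ?_
      rw [← Matrix.mul_kronecker_mul]
      have h4 : (g F - 1) * !![0, 1; -1, -1] = 1 := by
        ext i j
        fin_cases i <;> fin_cases j <;> simp [g, Matrix.mul_apply, Fin.sum_univ_two]
      rw [h4, mul_one, Matrix.one_kronecker_one]
    rw [← h3, ← e]
    exact Matrix.rank_submatrix_le _ _ _
  have s4 : (bcol B 0 - bcol B 2).rank ≤ (bcol B 0 - bcol B 1).rank + (bcol B 1 - bcol B 2).rank := by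
    have h := rank_add_le (bcol B 0 - bcol B 1) (bcol B 1 - bcol B 2)
    rwa [sub_add_sub_cancel] at h
  rw [hcard] at s1 s2
  omega

/-- A family of row factors `P i` and column factors `Q j` bounds the minimal rank. -/
theorem mr_le_card {κ : Type} [Fintype κ] (P : Fin 3 → Matrix (Fin 2) κ F)
    (Q : Fin 3 → Matrix κ (Fin 2) F) (T : Set ((Fin 3 × Fin 2) × (Fin 3 × Fin 2)))
    (h : ∀ i p j q, ((i, p), (j, q)) ∈ T → ∑ k, P i p k * Q j k q =
      if i = 2 ∧ j = 0 then g F p q else (1 : Matrix (Fin 2) (Fin 2) F) p q) :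
    mr T (a F) ≤ Fintype.card κ := by
  let L : Matrix (Fin 3 × Fin 2) κ F := fun x k => P x.1 x.2 k
  let R : Matrix κ (Fin 3 × Fin 2) F := fun k y => Q y.1 k y.2
  let B : Matrix (Fin 3 × Fin 2) (Fin 3 × Fin 2) F := fun x y => ∑ k, P x.1 x.2 k * Q y.1 k y.2
  have hB : B.rank ≤ Fintype.card κ :=
    le_trans (Matrix.rank_mul_le_left L R) (Matrix.rank_le_card_width _)
  exact (mr_le (B := B) fun x y hxy => h x.1 x.2 y.1 y.2 hxy).trans hB

theorem mem_J {x y : Fin 3 × Fin 2} (h : (x, y) ∈ J) : (x.1 = 0 ∧ y.1 = 0) ∨ (x.1 = 0 ∧ y.1 = 1) ∨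
    (x.1 = 1 ∧ y.1 = 1) ∨ (x.1 = 1 ∧ y.1 = 2) ∨ (x.1 = 2 ∧ y.1 = 2) ∨ (x.1 = 2 ∧ y.1 = 0) := by
  have h' : y.1 = x.1 ∨ y.1 = x.1 + 1 := h
  revert h'
  generalize x.1 = i
  generalize y.1 = j
  revert i j
  decide

/-- row factors of a completion of rank three -/
def P3 : Fin 3 → Matrix (Fin 2) (Fin 3) F
  | 0 => !![1, 0, 0; 0, 1, 0]
  | 1 => !![0, 0, 1; 1, 1, -1]
  | 2 => !![0, -1, 1; 1, 1, -1]

/-- column factors of a completion of rank three -/
def Q3 : Fin 3 → Matrix (Fin 3) (Fin 2) F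
  | 0 => !![1, 0; 0, 1; 0, 0]
  | 1 => !![1, 0; 0, 1; 1, 0]
  | 2 => !![1, 1; 0, 0; 1, 0]

theorem mr_le_three : mr J (a F) ≤ 3 := by
  refine (mr_le_card P3 Q3 J ?_).trans (by simp)
  intro i p j q h
  rcases mem_J h with ⟨h1, h2⟩ | ⟨h1, h2⟩ | ⟨h1, h2⟩ | ⟨h1, h2⟩ | ⟨h1, h2⟩ | ⟨h1, h2⟩ <;>
  · simp only at h1 h2
    subst h1 h2
    fin_cases p <;> fin_cases q <;> simp [Fin.sum_univ_three, P3, Q3, g]

theorem mrb_one_le (m n : Type) [Fintype m] [Fintype n] (J : Set (m × n)) (a : Matrix m n F) :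
    mrb J a 1 ≤ mr J a := by
  refine le_mr fun B hB => ?_
  refine (mr_le (B := B.submatrix Prod.fst Prod.fst) ?_).trans (Matrix.rank_submatrix_le _ _ _)
  intro i j h
  simp [tensorEntries, hB _ _ h, Subsingleton.elim i.2 j.2]

theorem fmr_eq : fmr J (a F) = 3 := by
  have hbdd : BddBelow (Set.range fun b : ℕ+ => (mrb J (a F) b : ℝ) / (b : ℕ)) := by
    refine ⟨0, ?_⟩
    rintro _ ⟨b, rfl⟩
    positivity
  apply le_antisymm
  · refine (ciInf_le hbdd 1).trans ?_
    have h1 : mrb J (a F) 1 ≤ 3 := (mrb_one_le _ _ _ _).trans mr_le_three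
    simpa using h1
  · refine le_ciInf fun b => ?_
    have h1 : 3 * (b : ℕ) ≤ mrb J (a F) b := le_mr fun B hB => lower B hB
    rw [le_div_iff₀ (by exact_mod_cast b.pos)]
    exact_mod_cast h1

theorem mr_eq : mr J (a F) = 3 := by
  refine le_antisymm mr_le_three ?_
  have h1 : 3 * 1 ≤ mrb J (a F) 1 := le_mr fun B hB => lower B hB
  exact h1.trans (mrb_one_le _ _ _ _)

/-- row factors of a completion of rank two when one block is dropped -/
def P2 (u : Matrix (Fin 2) (Fin 2) F) : Fin 3 → Matrix (Fin 2) (Fin 2) F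
  | 0 => !![1, 0; 0, 1]
  | 1 => u
  | 2 => u

/-- column factors of a completion of rank two when one block is dropped -/
def Q2 (u : Matrix (Fin 2) (Fin 2) F) : Fin 3 → Matrix (Fin 2) (Fin 2) F
  | 0 => !![1, 0; 0, 1]
  | 1 => !![1, 0; 0, 1]
  | 2 => u

/-- every triangular subpattern has a completion of rank at most two -/
theorem triangular_le {T : Set ((Fin 3 × Fin 2) × (Fin 3 × Fin 2))} (hT : T ⊆ J)
    (ht : Triangular T) : mr T (a F) ≤ 2 := by
  by_cases h : ∃ p q, ((2, p), (0, q)) ∈ T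
  · -- no known entry of the middle block
    obtain ⟨p, q, hpq⟩ := h
    have hno : ∀ r s, ((1, r), (1, s)) ∉ T := by
      intro r s hrs
      rcases ht _ _ _ _ hpq hrs with h1 | h1
      · have := hT h1
        simp [J] at this
      · have := hT h1
        simp [J] at this
    refine (mr_le_card (P2 (g F)) (Q2 !![1, 1; -1, 0]) T ?_).trans (by simp)
    intro i p j q h
    rcases mem_J (hT h) with ⟨h1, h2⟩ | ⟨h1, h2⟩ | ⟨h1, h2⟩ | ⟨h1, h2⟩ | ⟨h1, h2⟩ | ⟨h1, h2⟩ <;>
    · simp only at h1 h2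
      subst h1 h2
      first
        | exact absurd h (hno _ _)
        | fin_cases p <;> fin_cases q <;> simp [Fin.sum_univ_two, P2, Q2, g]
  · push Not at h
    refine (mr_le_card (P2 !![1, 0; 0, 1]) (Q2 !![1, 0; 0, 1]) T ?_).trans (by simp)
    intro i p j q hm
    rcases mem_J (hT hm) with ⟨h1, h2⟩ | ⟨h1, h2⟩ | ⟨h1, h2⟩ | ⟨h1, h2⟩ | ⟨h1, h2⟩ | ⟨h1, h2⟩ <;>
    · simp only at h1 h2
      subst h1 h2
      first
        | exact absurd hm (h _ _)
        | fin_cases p <;> fin_cases q <;> simp [Fin.sum_univ_two, P2, Q2, g]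

theorem tmr_eq : tmr J (a F) = 2 := by
  have hub : ∀ r ∈ {r | ∃ T : Set ((Fin 3 × Fin 2) × (Fin 3 × Fin 2)), IsMaxTriangular J T ∧
      mr T (a F) = r}, r ≤ 2 := by
    rintro r ⟨T, hT, rfl⟩
    exact triangular_le hT.1 hT.2.1
  apply le_antisymm
  · exact csSup_le' hub
  · -- a maximal triangular subpattern which contains the first block
    let T0 : Set ((Fin 3 × Fin 2) × (Fin 3 × Fin 2)) := {x | x.1.1 = 0 ∧ x.2.1 = 0}
    have h0 : T0 ⊆ J ∧ Triangular T0 := by
      constructor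
      · rintro x ⟨h1, h2⟩
        simp [J, h1, h2]
      · intro i j k l h1 h2
        exact Or.inl ⟨h1.1, h2.2⟩
    obtain ⟨T, hle, hT⟩ := Finite.exists_le_maximal
      (p := fun T : Set ((Fin 3 × Fin 2) × (Fin 3 × Fin 2)) => T ⊆ J ∧ Triangular T) h0
    have hmax : IsMaxTriangular J T :=
      ⟨hT.1.1, hT.1.2, fun S hS1 hS2 hTS => le_antisymm (hT.2 ⟨hS1, hS2⟩ hTS) hTS⟩
    have h2 : 2 ≤ mr T (a F) := by
      refine le_mr fun B hB => ?_
      have h3 := rank_add_card_le B (0 : Matrix (Fin 3 × Fin 2) (Fin 2) F)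
        (fun x q => B x (0, q)) (fun p => (0, p))
        (fun j => by
          have : (0 : Matrix (Fin 3 × Fin 2) (Fin 2) F).col j = 0 := rfl
          rw [this]
          exact Submodule.zero_mem _)
        (fun j => by
          rw [Matrix.range_mulVecLin]
          exact Submodule.subset_span ⟨(0, j), rfl⟩)
        (fun _ _ => rfl)
        (fun i j => by
          rw [hB _ _ (hle ⟨rfl, rfl⟩)]
          simp [a, Matrix.one_apply])
      rw [Matrix.rank_zero] at h3
      simpa using h3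
    exact h2.trans (le_csSup ⟨2, hub⟩ ⟨T, hmax, rfl⟩)

end Example

/-- Over every field there is a `6 × 6` partial matrix whose triangular minimal rank is `2` and
whose fractional minimal rank and minimal rank are both `3`. -/
theorem result (F : Type u) [Field F] :
    ∃ (J : Set ((Fin 3 × Fin 2) × (Fin 3 × Fin 2))) (a : Matrix (Fin 3 × Fin 2) (Fin 3 × Fin 2) F),
      tmr J a = 2 ∧ fmr J a = 3 ∧ mr J a = 3 ∧
      ¬ (((tmr J a : ℝ) < fmr J a ∧ fmr J a < mr J a) ∨
        ((tmr J a : ℝ) = fmr J a ∧ fmr J a = mr J a)) := by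
  refine ⟨J, a F, tmr_eq, fmr_eq, mr_eq, ?_⟩
  rw [tmr_eq, fmr_eq, mr_eq]
  norm_num

end Pool.Agent.Results.MP_f8e91b_al.BlockCycle
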